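import Pool.Agent.Lib.MP_032401_al.Main

/-!
# MP_032401_al: periodic biprimitively finite groups whose finite subgroups are metabelian with
abelian Sylow subgroups are locally finite
-/

set_option autoImplicit false

namespace Pool.Agent.Results.MP_032401_al.BFAbelianSylow

open scoped commutatorElement

/-- A periodic biprimitively finite group (of any rank) in which every finite subgroup is
metabelian and every finite `p`-subgroup is abelian, for every prime `p`, is locally finite. -/
theorem result :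
    ∀ (G : Type) [Group G],
      (∀ g : G, IsOfFinOrder g) →
      (∀ H : Subgroup G, (H : Set G).Finite →
        ∀ x y : G, x ∈ Subgroup.normalizer (H : Set G) → y ∈ Subgroup.normalizer (H : Set G) →
          (∃ p : ℕ, p.Prime ∧ x ∉ H ∧ x ^ p ∈ H) →
          (∃ q : ℕ, q.Prime ∧ y ∉ H ∧ y ^ q ∈ H) →
          ((Subgroup.closure ((H : Set G) ∪ {x, y}) : Subgroup G) : Set G).Finite) →
      (∀ F : Subgroup G, (F : Set G).Finite → ∀ a ∈ F, ∀ b ∈ F, ∀ c ∈ F, ∀ d ∈ F,
        ⁅a, b⁆ * ⁅c, d⁆ = ⁅c, d⁆ * ⁅a, b⁆) →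
      (∀ p : ℕ, p.Prime → ∀ P : Subgroup G, (P : Set G).Finite →
        (∀ x ∈ P, ∃ k : ℕ, x ^ p ^ k = 1) → ∀ a ∈ P, ∀ b ∈ P, a * b = b * a) →
      ∀ S : Finset G, ((Subgroup.closure (S : Set G) : Subgroup G) : Set G).Finite := by
  intro G _ hper hbf hmet habp S
  have hG : Lib.MP_032401_al.Cls G := ⟨hper, hbf, hmet, habp⟩
  exact hG.locally_finite (S : Set G) S.finite_toSet

end Pool.Agent.Results.MP_032401_al.BFAbelianSylow
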