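import Pool.Agent.Lib.MP_032401_al_M.Main

/-!
# MP_032401_al: periodic biprimitively finite groups with supersolvable finite subgroups and
finite locally finite `p`-subgroups are locally finite
-/

set_option autoImplicit false

namespace Pool.Agent.Results.MP_032401_al.BFMetanilpotent

/-- Biprimitively finite groups: for every finite subgroup `H`, any two elements of prime order of
`N_G(H)/H` generate a finite subgroup (the condition of the frozen statement). -/
def BiprimitivelyFinite (G : Type) [Group G] : Prop :=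
  ∀ H : Subgroup G, (H : Set G).Finite →
    ∀ x y : G, x ∈ Subgroup.normalizer (H : Set G) → y ∈ Subgroup.normalizer (H : Set G) →
      (∃ p : ℕ, p.Prime ∧ x ∉ H ∧ x ^ p ∈ H) →
      (∃ q : ℕ, q.Prime ∧ y ∉ H ∧ y ^ q ∈ H) →
      ((Subgroup.closure ((H : Set G) ∪ {x, y}) : Subgroup G) : Set G).Finite

/-- The subgroup `F` is supersolvable: it has a finite series `1 = s 0 ≤ s 1 ≤ ... ≤ s n = F` of
normal subgroups of `F` with cyclic factors. -/
def Supersolvable {G : Type} [Group G] (F : Subgroup G) : Prop :=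
  ∃ (n : ℕ) (s : ℕ → Subgroup G), s 0 = ⊥ ∧ s n = F ∧
    (∀ i : ℕ, i ≤ n → F ≤ Subgroup.normalizer ((s i : Subgroup G) : Set G)) ∧
    ∀ i : ℕ, i < n → ∃ g : G, s (i + 1) = s i ⊔ Subgroup.zpowers g

/-- Every locally finite `p`-subgroup of `G` is finite, for every prime `p`. -/
def LocallyFinitePSubgroupsFinite (G : Type) [Group G] : Prop :=
  ∀ p : ℕ, p.Prime → ∀ P : Subgroup G, (∀ x ∈ P, ∃ m : ℕ, x ^ p ^ m = 1) →
    (∀ S : Set G, S.Finite → S ⊆ P → ((Subgroup.closure S : Subgroup G) : Set G).Finite) →
    (P : Set G).Finite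

/-- Some `q`-element of `G` normalises, but does not centralise, some finite `k`-subgroup. -/
def ActsOn (G : Type) [Group G] (q k : ℕ) : Prop :=
  ∃ (Y : Subgroup G) (u : G), (Y : Set G).Finite ∧ (∀ y ∈ Y, ∃ m : ℕ, y ^ k ^ m = 1) ∧
    (∃ m : ℕ, u ^ q ^ m = 1) ∧ u ∈ Subgroup.normalizer (Y : Set G) ∧ ∃ y ∈ Y, u * y ≠ y * u

/-- Every finite subgroup of `G` is an extension of a nilpotent group by a nilpotent group. -/
def FiniteSubgroupsMetanilpotent (G : Type) [Group G] : Prop :=
  ∀ F : Subgroup G, (F : Set G).Finite →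
    ∃ (N : Subgroup F) (_ : N.Normal), Group.IsNilpotent N ∧ Group.IsNilpotent (F ⧸ N)

/-- Let `G` be a periodic biprimitively finite group all of whose locally finite `p`-subgroups are
finite.
(1) If every finite subgroup of `G` is supersolvable then `G` is locally finite.
(2) If every finite subgroup of `G` is metanilpotent and, for all primes `m ≠ l ≠ k` such that `m`
acts on `l` and `l` acts on `k`, `l` divides `k - 1`, then `G` is locally finite. -/
theorem result :
    (∀ (G : Type) [Group G], (∀ g : G, IsOfFinOrder g) → BiprimitivelyFinite G →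
      LocallyFinitePSubgroupsFinite G →
      (∀ F : Subgroup G, (F : Set G).Finite → Supersolvable F) →
      ∀ S : Finset G, ((Subgroup.closure (S : Set G) : Subgroup G) : Set G).Finite) ∧
    (∀ (G : Type) [Group G], (∀ g : G, IsOfFinOrder g) → BiprimitivelyFinite G →
      LocallyFinitePSubgroupsFinite G →
      FiniteSubgroupsMetanilpotent G →
      (∀ m l k : ℕ, m.Prime → l.Prime → k.Prime → m ≠ l → l ≠ k → ActsOn G m l → ActsOn G l k →
        l ∣ k - 1) →
      ∀ S : Finset G, ((Subgroup.closure (S : Set G) : Subgroup G) : Set G).Finite) := by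
  refine ⟨?_, ?_⟩
  · intro G _ hper hbf hfin hssv S
    exact Lib.MP_032401_al_M.main_ssv G hper hbf hssv hfin S
  · intro G _ hper hbf hfin hmet hchn S
    refine Lib.MP_032401_al_M.main_met G hper hbf hmet ?_ hfin S
    intro m l k hm hl hk hml hlk h1 h2
    have hconv : ∀ q k : ℕ, Lib.MP_032401_al_M.Act G q k → ActsOn G q k := by
      rintro q k ⟨Y, u, hY, hu, hn, hy⟩
      exact ⟨Y, u, hY.1, hY.2, hu, hn, hy⟩
    exact hchn m l k hm hl hk hml hlk (hconv _ _ h1) (hconv _ _ h2)

end Pool.Agent.Results.MP_032401_al.BFMetanilpotent
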