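import Pool.Agent.Lib.MP_032401_al.Z.Main

/-!
# MP_032401_al: periodic conjugacy biprimitively finite groups whose finite `p`-subgroups are cyclic
are locally finite
-/

set_option autoImplicit false

namespace Pool.Agent.Results.MP_032401_al.CBFCyclicSylow

/-- A periodic conjugacy biprimitively finite group in which all finite `p`-subgroups, for every
prime `p`, are cyclic is locally finite. -/
theorem result :
    ∀ (G : Type) [Group G],
      (∀ g : G, IsOfFinOrder g) →
      (∀ H : Subgroup G, (H : Set G).Finite →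
        ∀ x g : G, x ∈ Subgroup.normalizer (H : Set G) → g ∈ Subgroup.normalizer (H : Set G) →
          (∃ p : ℕ, p.Prime ∧ x ∉ H ∧ x ^ p ∈ H) →
          ((Subgroup.closure ((H : Set G) ∪ {x, g * x * g⁻¹}) : Subgroup G) : Set G).Finite) →
      (∀ p : ℕ, p.Prime → ∀ P : Subgroup G, (P : Set G).Finite →
        (∀ x ∈ P, ∃ k : ℕ, x ^ p ^ k = 1) → IsCyclic P) →
      ∀ S : Finset G, ((Subgroup.closure (S : Set G) : Subgroup G) : Set G).Finite := by
  intro G _ hper hcbf hcyc S
  have hG : Lib.MP_032401_al.Z.ZCls G := ⟨hper, hcbf, hcyc⟩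
  exact hG.locally_finite (S : Set G) S.finite_toSet

end Pool.Agent.Results.MP_032401_al.CBFCyclicSylow
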