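import Pool.Agent.Lib.MP_032401_al_M.CMain
import Pool.Agent.Lib.MP_032401_al_M.Nil

/-!
# MP_032401_al: periodic conjugacy biprimitively finite groups with solvable finite subgroups and
finite locally finite `p`-subgroups are locally finite, if there is no infinite chain of primes
acting on each other
-/

set_option autoImplicit false

namespace Pool.Agent.Results.MP_032401_al.CBFSolvable

/-- Conjugacy biprimitively finite groups: for every finite subgroup `H`, any two elements of prime
order of `N_G(H)/H` which are conjugate in `N_G(H)/H` generate a finite subgroup. (`x` is an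
element of `N_G(H)` whose image has prime order, `g * x * g⁻¹` is a conjugate of it by an element
`g` of `N_G(H)`.) -/
def ConjugacyBiprimitivelyFinite (G : Type) [Group G] : Prop :=
  ∀ H : Subgroup G, (H : Set G).Finite →
    ∀ x g : G, x ∈ Subgroup.normalizer (H : Set G) → g ∈ Subgroup.normalizer (H : Set G) →
      (∃ p : ℕ, p.Prime ∧ x ∉ H ∧ x ^ p ∈ H) →
      ((Subgroup.closure ((H : Set G) ∪ {x, g * x * g⁻¹}) : Subgroup G) : Set G).Finite

/-- Every locally finite `p`-subgroup of `G` is finite, for every prime `p`. -/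
def LocallyFinitePSubgroupsFinite (G : Type) [Group G] : Prop :=
  ∀ p : ℕ, p.Prime → ∀ P : Subgroup G, (∀ x ∈ P, ∃ m : ℕ, x ^ p ^ m = 1) →
    (∀ S : Set G, S.Finite → S ⊆ P → ((Subgroup.closure S : Subgroup G) : Set G).Finite) →
    (P : Set G).Finite

/-- Some `q`-element of `G` normalises, but does not centralise, some finite `k`-subgroup. -/
def ActsOn (G : Type) [Group G] (q k : ℕ) : Prop :=
  ∃ (Y : Subgroup G) (u : G), (Y : Set G).Finite ∧ (∀ y ∈ Y, ∃ m : ℕ, y ^ k ^ m = 1) ∧
    (∃ m : ℕ, u ^ q ^ m = 1) ∧ u ∈ Subgroup.normalizer (Y : Set G) ∧ ∃ y ∈ Y, u * y ≠ y * u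

/-- There is an infinite sequence of primes `f 0, f 1, ...` (repetitions are allowed, but
consecutive members are different) such that `f i` acts on `f (i + 1)` for all `i`. -/
def HasInfiniteActionChain (G : Type) [Group G] : Prop :=
  ∃ f : ℕ → ℕ, ∀ i : ℕ, (f i).Prime ∧ f (i + 1) ≠ f i ∧ ActsOn G (f i) (f (i + 1))

/-- Let `G` be a periodic conjugacy biprimitively finite group all of whose locally finite
`p`-subgroups are finite, for every prime `p`.
(1) If every finite subgroup of `G` is solvable and there is no infinite action chain then `G` is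
locally finite.
(2) If every finite subgroup of `G` is nilpotent then `G` is locally finite.
(3) If every finite subgroup of `G` is solvable, and for all different primes `q`, `k` such that
`q` acts on `k` we have `k < q`, then `G` is locally finite. -/
theorem result (G : Type) [Group G] (hper : ∀ g : G, IsOfFinOrder g)
    (hcbf : ConjugacyBiprimitivelyFinite G) (hfin : LocallyFinitePSubgroupsFinite G) :
    ((∀ F : Subgroup G, (F : Set G).Finite → Group.IsSolvable F) → ¬ HasInfiniteActionChain G →
      ∀ S : Finset G, ((Subgroup.closure (S : Set G) : Subgroup G) : Set G).Finite) ∧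
    ((∀ F : Subgroup G, (F : Set G).Finite → Group.IsNilpotent F) →
      ∀ S : Finset G, ((Subgroup.closure (S : Set G) : Subgroup G) : Set G).Finite) ∧
    ((∀ F : Subgroup G, (F : Set G).Finite → Group.IsSolvable F) →
      (∀ q k : ℕ, q.Prime → k.Prime → q ≠ k → ActsOn G q k → k < q) →
      ∀ S : Finset G, ((Subgroup.closure (S : Set G) : Subgroup G) : Set G).Finite) := by
  have hconv : ∀ q k : ℕ, Lib.MP_032401_al_M.Act G q k → ActsOn G q k := by
    rintro q k ⟨Y, u, hY, hu, hn, hy⟩
    exact ⟨Y, u, hY.1, hY.2, hu, hn, hy⟩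
  have h1 : (∀ F : Subgroup G, (F : Set G).Finite → Group.IsSolvable F) →
      ¬ HasInfiniteActionChain G →
      ∀ S : Finset G, ((Subgroup.closure (S : Set G) : Subgroup G) : Set G).Finite := by
    intro hsol hch S
    refine Lib.MP_032401_al_M.main_cbf G hper hcbf hsol hfin ?_ S
    rintro ⟨f, hf⟩
    exact hch ⟨f, fun i => ⟨(hf i).1, (hf i).2.1, hconv _ _ (hf i).2.2⟩⟩
  refine ⟨h1, ?_, ?_⟩
  · intro hnil
    refine h1 (fun F hF => ?_) ?_
    · have := hnil F hF
      infer_instance
    · rintro ⟨f, hf⟩
      obtain ⟨hp0, hne, Y, u, hYf, hY, hu, hn, y, hy, hyu⟩ := hf 0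
      have hp1 := (hf 1).1
      have hXf : ((Y ⊔ Subgroup.zpowers u : Subgroup G) : Set G).Finite :=
        Lib.MP_032401_al_M.sup_finite hYf
          ((Lib.MP_032401_al_M.PElt.isOfFinOrder hp0 hu).finite_zpowers)
          (by rwa [Subgroup.zpowers_le])
      have hX := hnil _ hXf
      have hfi : Finite (Y ⊔ Subgroup.zpowers u : Subgroup G) := hXf.to_subtype
      have huX : u ∈ Y ⊔ Subgroup.zpowers u :=
        (le_sup_right : Subgroup.zpowers u ≤ _) (Subgroup.mem_zpowers u)
      have hyX : y ∈ Y ⊔ Subgroup.zpowers u := (le_sup_left : Y ≤ _) hy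
      have h2 := Lib.MP_032401_al_M.commute_of_nilpotent hX hp0 hp1 (Ne.symm hne)
        (x := ⟨u, huX⟩) (y := ⟨y, hyX⟩)
        (by obtain ⟨m, hm⟩ := hu; exact ⟨m, Subtype.ext hm⟩)
        (by obtain ⟨m, hm⟩ := hY y hy; exact ⟨m, Subtype.ext hm⟩)
      exact hyu (congrArg Subtype.val h2)
  · intro hsol hlt
    refine h1 hsol ?_
    rintro ⟨f, hf⟩
    have h2 : ∀ i : ℕ, f i + i ≤ f 0 := by
      intro i
      induction i with
      | zero => simp
      | succ i ih =>
        have h3 := hlt (f i) (f (i + 1)) (hf i).1 (hf (i + 1)).1 (Ne.symm (hf i).2.1) (hf i).2.2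
        omega
    have h4 := h2 (f 0 + 1)
    omega

end Pool.Agent.Results.MP_032401_al.CBFSolvable
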